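import Pool.Agent.helper54.XP.SpecL

/-!
# Project xp: (MP_af9036_an), module LPI: the limit set of the poles
-/

set_option autoImplicit false

open Complex Metric Set Filter Topology MeasureTheory XP
open V3S (UF)

noncomputable section

namespace XPL

theorem LPI_eq (D : ℕ → Dat) :
    Pin D = V3.LP (hyperfilter ℕ) (fun m => ZMod (D m).k) (fun m => (D m).p) := by
  ext q
  constructor
  · intro hq
    have hmin : ∀ m, ∃ i : ZMod (D m).k, ∀ l : ZMod (D m).k, ‖(D m).p i - q‖ ≤ ‖(D m).p l - q‖ :=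
      fun m => Finite.exists_min (fun l : ZMod (D m).k => ‖(D m).p l - q‖)
    choose i hi using hmin
    refine ⟨i, ?_⟩
    rw [Metric.tendsto_nhds]
    intro ε hε
    have h1 : ∀ᶠ m in UF, ∃ l : ZMod (D m).k, ‖(D m).p l - q‖ < ε := hq ε hε
    have h2 : ∀ᶠ m in UF, dist ((D m).p (i m)) q < ε := by
      filter_upwards [h1] with m hm
      obtain ⟨l, hl⟩ := hm
      rw [dist_eq_norm]
      exact lt_of_le_of_lt (hi m l) hl
    exact h2
  · rintro ⟨i, hi⟩ ε hε
    have h1 := Metric.tendsto_nhds.mp hi ε hε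
    have h2 : ∀ᶠ m in UF, dist ((D m).p (i m)) q < ε := h1
    filter_upwards [h2] with m hm
    exact ⟨i m, by rwa [dist_eq_norm] at hm⟩

theorem LPI (hBA1 : BA1_stmt) (hBAD : BAD_stmt) (hNLP : V3.NLP_stmt) (hPCO : V3.PCO_stmt) :
    LPI_stmt := by
  intro n C D hD
  obtain ⟨A, -, hgood⟩ := hD.good
  have hsep' : ∀ (m : ℕ) (i l : ZMod (D m).k), i ≠ l → 1 ≤ ‖(D m).p i - (D m).p l‖ :=
    fun m => (hBAD n C (A m) (D m) (hgood m)).2.1
  have heq := LPI_eq D
  obtain ⟨h1, -, h3, -⟩ := hNLP (hyperfilter ℕ) (fun m => ZMod (D m).k) (fun m => (D m).p) 1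
    one_pos (Eventually.of_forall hsep')
  rw [← heq] at h1 h3
  obtain ⟨hcl, hct, hpc⟩ := hPCO (Pin D) 1 one_pos h1
  refine ⟨heq, ?_, ?_, hcl, hct, hpc, 1, one_pos, h1, ?_⟩
  · intro ε hε
    refine Eventually.of_forall fun m => ⟨0, ?_⟩
    have h0 : (D m).p 0 = 0 := by
      obtain ⟨-, -, -, -, -, -, -, -, -, -, -, h12, -⟩ := hBA1 n C (A m) (D m) (hgood m)
      exact h12
    rw [h0, sub_zero, norm_zero]
    exact hε
  · intro x hx
    obtain ⟨δ, hδ, h⟩ := h3 x hx
    exact ⟨δ, hδ, h⟩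
  · intro p hp ε hε
    have h2 : ∀ᶠ m in UF, ∃ l : ZMod (D m).k, ‖(D m).p l - p‖ < min ε (1 / 4) :=
      hp (min ε (1 / 4)) (lt_min hε (by positivity))
    filter_upwards [h2] with m hm l hl
    obtain ⟨l', hl'⟩ := hm
    by_cases hll : l = l'
    · rw [hll]; exact lt_of_lt_of_le hl' (min_le_left _ _)
    · exfalso
      have h4 := hsep' m l l' hll
      have h5 : ‖(D m).p l - (D m).p l'‖ ≤ ‖(D m).p l - p‖ + ‖(D m).p l' - p‖ := by
        have : (D m).p l - (D m).p l' = ((D m).p l - p) - ((D m).p l' - p) := by ring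
        rw [this]
        exact norm_sub_le _ _
      have h6 : ‖(D m).p l' - p‖ < 1 / 4 := lt_of_lt_of_le hl' (min_le_right _ _)
      linarith

end XPL
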