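import Pool.Agent.helper60.XP.SpecT

/-!
# Project xp: (MP_af9036_an), module BCV: bounds of `B` near regular points
-/

set_option autoImplicit false

open Complex Metric Set Filter Topology MeasureTheory
open V3S (UF)
open XP

noncomputable section

namespace XPT

theorem BCV_isClosed (D : ℕ → Dat) : IsClosed (Pin D) := by
  rw [← closure_eq_iff_isClosed]
  refine Subset.antisymm ?_ subset_closure
  intro p hp ε hε
  obtain ⟨p', hp', hd⟩ := Metric.mem_closure_iff.1 hp (ε / 2) (half_pos hε)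
  filter_upwards [hp' (ε / 2) (half_pos hε)] with m hm
  obtain ⟨l, hl⟩ := hm
  refine ⟨l, ?_⟩
  have h1 : (D m).p l - p = ((D m).p l - p') + (p' - p) := by ring
  rw [h1]
  refine lt_of_le_of_lt (norm_add_le _ _) ?_
  rw [dist_comm, dist_eq_norm] at hd
  linarith

theorem BCV_diff {n : ℕ} {C A : ℝ} {D : Dat} (hD : D.Good n C A) {x : ℂ} (hx : D.zz x ∉ D.PP) :
    DifferentiableAt ℂ D.B x := by
  have h1 : D.zz x ∉ D.P := fun h => hx (Or.inr h)
  have h2 : ∀ i, D.zz x ≠ D.b i := fun i h => hx (Or.inl ⟨i, h.symm⟩)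
  have hzz : DifferentiableAt ℂ D.zz x := by
    unfold Dat.zz
    fun_prop
  have hBB : DifferentiableAt ℂ (MPS.BB D.b D.g) (D.zz x) := by
    unfold MPS.BB
    refine DifferentiableAt.fun_sum fun i _ => ?_
    have h3 : D.zz x - D.b i ≠ 0 := sub_ne_zero.2 (h2 i)
    refine DifferentiableAt.add ?_ ?_
    · exact (differentiableAt_const _).div ((differentiableAt_id.sub_const _).pow 2)
        (pow_ne_zero 2 h3)
    · exact (differentiableAt_const _).div (differentiableAt_id.sub_const _) h3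
  have hH : DifferentiableAt ℂ D.H (D.zz x) := by
    unfold Dat.H Dat.H0
    exact (hBB.add (hD.rdiff _ h1)).const_mul _
  unfold Dat.B
  exact (hH.comp x hzz).const_mul _

theorem BCV (hNPC : NPC_stmt) : BCV_stmt := by
  intro n C D hD hLB
  obtain ⟨A, -, hgood⟩ := hD.good
  have hcl := BCV_isClosed D
  have hcont : ContinuousOn (Bin D) (Pin D)ᶜ := hLB.diff.continuousOn
  have hopen : IsOpen (Reg D) := by
    have h1 : Reg D = (Pin D)ᶜ ∩ Bin D ⁻¹' {0}ᶜ := by
      ext x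
      rfl
    rw [h1]
    exact hcont.isOpen_inter_preimage hcl.isOpen_compl isOpen_compl_singleton
  refine ⟨hopen, hcl, ?_⟩
  intro K hK hKR
  rcases K.eq_empty_or_nonempty with rfl | hne
  · exact ⟨1, one_pos, 0, Eventually.of_forall fun m x hx => absurd hx (Set.notMem_empty x)⟩
  obtain ⟨δ, hδ, hsub⟩ := hK.exists_cthickening_subset_open hopen hKR
  set K' := cthickening δ K with hK'
  have hK'c : IsCompact K' := hK.cthickening
  have hK'P : K' ⊆ (Pin D)ᶜ := fun x hx => (hsub hx).1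
  have hcK' : ContinuousOn (fun x => ‖Bin D x‖) K' := (hcont.mono hK'P).norm
  have hne' : K'.Nonempty := hne.mono (self_subset_cthickening K)
  obtain ⟨x₁, hx₁, hmin⟩ := hK'c.exists_isMinOn hne' hcK'
  obtain ⟨x₂, hx₂, hmax⟩ := hK'c.exists_isMaxOn hne' hcK'
  have hpos : 0 < ‖Bin D x₁‖ := norm_pos_iff.2 (hsub hx₁).2
  obtain ⟨κ, hκ⟩ : ∃ κ, κ = ‖Bin D x₁‖ / 2 := ⟨_, rfl⟩
  have hκ0 : 0 < κ := by rw [hκ]; positivity
  obtain ⟨M₀, hM₀⟩ : ∃ M₀, M₀ = ‖Bin D x₂‖ + κ := ⟨_, rfl⟩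
  have hM₀0 : 0 ≤ M₀ := by rw [hM₀]; positivity
  refine ⟨κ, hκ0, max M₀ (M₀ / (δ / 2)), ?_⟩
  have hev := Metric.tendstoUniformlyOn_iff.1 (hLB.conv K' hK'c hK'P) κ hκ0
  filter_upwards [hev, hNPC n C D hD K' hK'c hK'P] with m hm1 hm2
  have hdiff : ∀ x ∈ K', DifferentiableAt ℂ (D m).B x := fun x hx =>
    BCV_diff (hgood m) (hm2 x hx)
  have hlow : ∀ x ∈ K', κ ≤ ‖(D m).B x‖ := by
    intro x hx
    have h1 := hm1 x hx
    rw [dist_eq_norm] at h1
    have h2 : ‖Bin D x₁‖ ≤ ‖Bin D x‖ := hmin hx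
    have h3 : ‖Bin D x‖ ≤ ‖Bin D x - (D m).B x‖ + ‖(D m).B x‖ := by
      have h4 := norm_add_le (Bin D x - (D m).B x) ((D m).B x)
      rwa [sub_add_cancel] at h4
    linarith
  have hup : ∀ x ∈ K', ‖(D m).B x‖ ≤ M₀ := by
    intro x hx
    have h1 := hm1 x hx
    rw [dist_comm, dist_eq_norm] at h1
    have h2 : ‖Bin D x‖ ≤ ‖Bin D x₂‖ := hmax hx
    have h3 : ‖(D m).B x‖ ≤ ‖(D m).B x - Bin D x‖ + ‖Bin D x‖ := by
      have h4 := norm_add_le ((D m).B x - Bin D x) (Bin D x)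
      rwa [sub_add_cancel] at h4
    linarith
  intro x hx
  have hxK' : x ∈ K' := self_subset_cthickening K hx
  have hball : closedBall x (δ / 2) ⊆ K' := by
    intro y hy
    have h1 : dist y x ≤ δ := (mem_closedBall.1 hy).trans (by linarith)
    exact mem_cthickening_of_dist_le y x δ K hx h1
  refine ⟨hdiff x hxK', hlow x hxK', (hup x hxK').trans (le_max_left _ _), ?_⟩
  refine le_trans ?_ (le_max_right _ _)
  have hdc : DiffContOnCl ℂ (D m).B (ball x (δ / 2)) := by
    apply DifferentiableOn.diffContOnCl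
    rw [closure_ball x (by positivity)]
    exact fun y hy => (hdiff y (hball hy)).differentiableWithinAt
  exact Complex.norm_deriv_le_of_forall_mem_sphere_norm_le (by positivity) hdc
    fun y hy => hup y (hball (sphere_subset_closedBall hy))

end XPT
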