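import Pool.Agent.helper74.XP.SpecP

/-!
# Project xp: (MP_af9036_an, Theorem X'): module XF, the final theorem for `z ^ n + c`
-/

set_option autoImplicit false

open Complex Metric Set Filter Topology MeasureTheory MPS PPS Pool.Agent.helper16.Multibrot

noncomputable section

namespace XPP

theorem XF_ev (n : ℕ) (c : ℂ) :
    (fun w : ℂ => (Polynomial.X ^ n + Polynomial.C c).eval w) = fc n c := by
  funext w
  simp [fc]

theorem XF_fd (n : ℕ) (c z : ℂ) :
    PPS.fd (Polynomial.X ^ n + Polynomial.C c) z = MPS.fd n z := by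
  unfold PPS.fd MPS.fd
  simp [Polynomial.derivative_X_pow]

theorem XF_fdd (n : ℕ) (hn : 1 ≤ n) (c z : ℂ) :
    PPS.fdd (Polynomial.X ^ n + Polynomial.C c) z = MPS.fdd n z := by
  unfold PPS.fdd MPS.fdd
  simp only [Polynomial.derivative_add, Polynomial.derivative_X_pow, Polynomial.derivative_C,
    add_zero, Polynomial.derivative_mul, zero_mul, zero_add, Polynomial.eval_mul,
    Polynomial.eval_C, Polynomial.eval_pow, Polynomial.eval_X]
  rw [Nat.cast_sub hn, Nat.cast_one, show n - 1 - 1 = n - 2 by omega]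
  ring

theorem XF_mlt (n k : ℕ) (c z : ℂ) :
    PPS.mlt (Polynomial.X ^ n + Polynomial.C c) k z = MPS.mlt n k c z := by
  unfold PPS.mlt MPS.mlt
  rw [XF_ev]

theorem XF_cyc {n k : ℕ} [NeZero k] {c : ℂ} {b : ZMod k → ℂ} (hn : 2 ≤ n)
    (h : PPS.IsCyc (Polynomial.X ^ n + Polynomial.C c) b) : MPS.IsCyc n c b := by
  refine ⟨h.inj, fun i => ?_, fun i h0 => ?_⟩
  · have h1 := h.step i
    simpa using h1
  · refine h.ne0 i ?_
    rw [XF_fd, MPS.fd, h0, zero_pow (by omega), mul_zero]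

theorem XF_rho {n k : ℕ} [NeZero k] {c : ℂ} {b : ZMod k → ℂ} :
    PPS.rho (Polynomial.X ^ n + Polynomial.C c) b = MPS.rho n b := by
  unfold PPS.rho MPS.rho
  exact Finset.prod_congr rfl fun i _ => XF_fd n c (b i)

/-- iterates of a point of a cycle. -/
theorem XF_iter {n k : ℕ} [NeZero k] {c : ℂ} {b : ZMod k → ℂ} (h : MPS.IsCyc n c b) (j : ℕ) :
    (fc n c)^[j] (b 0) = b (j : ZMod k) := by
  induction j with
  | zero => simp
  | succ j ih =>
    rw [Function.iterate_succ_apply', ih]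
    have h1 := h.step (j : ZMod k)
    simpa [fc] using h1

theorem XF_period {n k : ℕ} [NeZero k] {c : ℂ} {b : ZMod k → ℂ} (h : MPS.IsCyc n c b) :
    Function.minimalPeriod (fc n c) (b 0) = k := by
  apply Nat.dvd_antisymm
  · apply Function.IsPeriodicPt.minimalPeriod_dvd
    change (fc n c)^[k] (b 0) = b 0
    rw [XF_iter h]
    simp
  · have h1 := Function.iterate_minimalPeriod (f := fc n c) (x := b 0)
    rw [XF_iter h] at h1
    have h2 := h.inj h1
    exact (ZMod.natCast_eq_zero_iff _ _).1 h2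

theorem XF (hXFU : XFU_stmt) (hBIG : MPS.ZBIG_stmt) (hZN : MPS.ZN_stmt) (hZC : MPS.ZC_stmt)
    (hCYC : MPS.ZCYC_stmt) (hZL : MPS.ZL_stmt) (hZBC : MPS.ZBC_stmt) : XF_stmt := by
  intro n hn
  obtain ⟨ε, hε, hX⟩ := hXFU n hn
  refine ⟨min ε (1 / 2), lt_min hε (by norm_num), ?_⟩
  intro c hc
  rcases le_or_gt 3 ‖c‖ with h3 | h3
  · -- large parameters
    refine Set.Finite.subset Set.finite_empty ?_
    rintro z ⟨k, hk, hper, hm⟩
    exfalso
    have hfix : (fc n c)^[k] z = z := by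
      have h2 := Function.iterate_minimalPeriod (f := fc n c) (x := z)
      rwa [hper] at h2
    have h4 := hBIG n k c z hn hk h3 hfix
    have h5 : (3 / 2 : ℝ) ≤ (3 / 2 : ℝ) ^ k := le_self_pow₀ (by norm_num) hk.ne'
    have h6 : min ε (1 / 2) ≤ 1 / 2 := min_le_right _ _
    linarith
  -- a ball without hyperbolic parameters
  obtain ⟨r₀, hr₀, hball⟩ : ∃ r₀ > 0, ball c r₀ ⊆ (closure (hyperbolic n))ᶜ :=
    Metric.isOpen_iff.1 isClosed_closure.isOpen_compl c hc
  obtain ⟨r, hr⟩ : ∃ r, r = r₀ := ⟨_, rfl⟩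
  rw [← hr] at hr₀ hball
  have hdis : Disjoint (ball c r) (hyperbolic n) := by
    rw [Set.disjoint_left]
    intro x hx hx2
    exact hball hx (subset_closure hx2)
  have hrep := hZN n c r hn hdis
  have hcb : c ∈ ball c r := mem_ball_self hr₀
  have hK : ∀ O : CY (Polynomial.X ^ n + Polynomial.C c), 2 ≤ O.k → ‖∑ i, O.g i‖ ≤ 2 / r * O.L := by
    intro O _
    have hcyc : MPS.IsCyc n c O.b := XF_cyc hn O.cyc
    have hk0 : 0 < O.k := Nat.pos_of_ne_zero (NeZero.ne O.k)
    obtain ⟨zf, hzf, hzc, hper⟩ := hZC n O.k c r hn hk0 hr₀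
      (fun c' hc' z' hz' => hrep c' hc' O.k z' hk0 hz') (O.b 0) (XF_period hcyc)
    have hgt : ∀ c' ∈ ball c r, 1 < ‖MPS.mlt n O.k c' (zf c')‖ := by
      intro c' hc'
      refine hrep c' hc' O.k (zf c') hk0 ?_
      have h1 := Function.iterate_minimalPeriod (f := fc n c') (x := zf c')
      rwa [hper c' hc'] at h1
    have hB := hZBC (fun c' => MPS.mlt n O.k c' (zf c')) c r hr₀ (FB_mltDiff n O.k hzf) hgt
    set b : ℂ → ZMod O.k → ℂ := fun c' i => (fc n c')^[i.val] (zf c') with hb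
    have hall : ∀ c' ∈ ball c r, (∀ i, b c' i ^ n + c' = b c' (i + 1)) ∧
        MPS.rho n (b c') = MPS.mlt n O.k c' (zf c') := by
      intro c' hc'
      obtain ⟨b', hb1, hb2, hb3, hb4, hb5, hb6⟩ := hCYC n O.k c' (zf c') hn (hper c' hc')
      have hbb : b' = b c' := by
        funext i
        have h4 := hb4 i.val
        rw [ZMod.natCast_zmod_val] at h4
        exact h4
      rw [← hbb]
      exact ⟨hb2, hb5⟩
    have hbc : b c = O.b := by
      funext i
      have h1 := XF_iter hcyc i.val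
      rw [ZMod.natCast_zmod_val] at h1
      rw [hb]
      simp only [hzc]
      exact h1
    have hg : ∀ i, O.g (i + 1) = O.g i / MPS.fd n (b c i) - MPS.fdd n (b c i) / MPS.fd n (b c i) ^ 2 := by
      intro i
      have h1 := O.ex i
      rw [XF_fd, XF_fdd n (by omega)] at h1
      rw [hbc]
      exact h1
    have hder := hZL n O.k (ball c r) b c O.g hn isOpen_ball hcb
      (fun i => FA_diff n (ball c r) zf hzf i.val)
      (fun c' hc' => (hall c' hc').1) (fun i => by rw [hbc]; exact hcyc.ne0 i) hg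
    have hev : (fun c' => MPS.rho n (b c')) =ᶠ[𝓝 c] fun c' => MPS.mlt n O.k c' (zf c') := by
      filter_upwards [isOpen_ball.mem_nhds hcb] with c' hc'
      exact (hall c' hc').2
    have hrho : MPS.rho n (b c) = MPS.mlt n O.k c (zf c) := (hall c hcb).2
    rw [hev.deriv_eq, hrho] at hder
    rw [← hder]
    refine hB.trans (le_of_eq ?_)
    have hL : Real.log ‖MPS.mlt n O.k c (zf c)‖ = O.L := by
      rw [CY.L, ← hrho, hbc, XF_rho]
    rw [hL]
    ring
  have hfin := hX c h3.le ⟨2 / r, hK⟩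
  refine hfin.subset ?_
  rintro z ⟨k, hk, hper, hm⟩
  have hfix : (fc n c)^[k] z = z := by
    have h2 := Function.iterate_minimalPeriod (f := fc n c) (x := z)
    rwa [hper] at h2
  have hgt := hrep c hcb k z hk hfix
  refine ⟨k, ⟨⟨hk, ?_⟩, ?_⟩, ?_⟩
  · rw [XF_ev]
    exact hper
  · rw [XF_mlt]
    exact hgt
  · rw [XF_mlt]
    have h6 : min ε (1 / 2) ≤ ε := min_le_left _ _
    linarith

end XPP
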